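import Pool.Agent.Helper75.PZ.GoalsC

/-!
# Packet PZ-SQR: the scales
-/

namespace Pool.Agent.Helper98.PZ

open Finset Filter Topology
open Pool.Agent.Helper75.PZ

/-- The scales. -/
noncomputable def sc (h : ℝ → ℝ) (R : ℝ) : ℕ → ℝ
  | 0 => R
  | n + 1 => sc h R n * (1 - h (sc h R n / 4) / 2)

/-- **Packet PZ-SQR.** -/
theorem sqr (hG : P_GFN) : P_SQR := by
  intro h hm hp hb hs R hR
  have hpos : ∀ n, 0 < sc h R n := by
    intro n
    induction n with
    | zero => exact hR
    | succ n ih =>
      show 0 < sc h R n * (1 - h (sc h R n / 4) / 2)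
      have h1 := hb (sc h R n / 4)
      exact mul_pos ih (by linarith)
  have hstep : ∀ n, sc h R (n + 1) = sc h R n - sc h R n * h (sc h R n / 4) / 2 := by
    intro n
    show sc h R n * (1 - h (sc h R n / 4) / 2) = _
    ring
  have hdec : ∀ n, sc h R (n + 1) ≤ sc h R n := by
    intro n
    rw [hstep n]
    have h1 := hpos n
    have h2 := hp (sc h R n / 4) (by linarith)
    have h3 := mul_pos h1 h2
    linarith
  have hhalf : ∀ n, sc h R n / 2 ≤ sc h R (n + 1) := by
    intro n
    rw [hstep n]
    have h1 := hpos n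
    have h2 := hb (sc h R n / 4)
    have h3 : sc h R n * h (sc h R n / 4) ≤ sc h R n * (1 / 2) :=
      mul_le_mul_of_nonneg_left h2 h1.le
    linarith
  refine ⟨sc h R, rfl, hpos, hdec, ?_, ?_⟩
  · obtain ⟨G, hG0, hG1⟩ := hG (fun r => h (r / 4)) (fun a b hab => hm (by linarith))
      (fun r hr => hp _ (by linarith)) (by
        have h1 := (summable_nat_add_iff 2).2 hs
        refine (h1.mul_left 4).congr fun n => ?_
        have e : (1 / 2 : ℝ) ^ (n + 2) = (1 / 2) ^ n / 4 := by
          rw [pow_add]
          ring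
        show 4 * ((1 / 2 : ℝ) ^ (n + 2) / h ((1 / 2) ^ (n + 2))) =
          (1 / 2 : ℝ) ^ n / h ((1 / 2) ^ n / 4)
        rw [e]
        ring)
    have key : ∀ n, sc h R n / 2 ≤ G (sc h R n) - G (sc h R (n + 1)) := by
      intro n
      have h1 := hG1 (sc h R (n + 1)) (sc h R n) (hpos _).le (hdec n) (hpos n)
      have h2 : 0 < h (sc h R n / 4) := hp _ (by have := hpos n; linarith)
      have h3 : (sc h R n - sc h R (n + 1)) / h (sc h R n / 4) = sc h R n / 2 := by
        rw [hstep n]
        field_simp
        ring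
      linarith [h3 ▸ h1]
    have hsum : ∀ n, ∑ i ∈ range n, sc h R i ≤ 2 * (G R - G (sc h R n)) := by
      intro n
      induction n with
      | zero =>
        show ∑ i ∈ range 0, sc h R i ≤ 2 * (G R - G R)
        simp
      | succ n ih =>
        rw [sum_range_succ]
        have := key n
        linarith
    refine summable_of_sum_range_le (c := 2 * G R) (fun n => (hpos n).le) fun n => ?_
    have h1 := hsum n
    have h2 := hG0 _ (hpos n).le
    linarith
  · intro n a ha han
    rcases le_total a (sc h R n / 2) with h1 | h1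
    · have h2 : a * (1 - h (a / 2) / 2) ≤ a := by
        rcases ha.eq_or_lt with h3 | h3
        · rw [← h3]
          simp
        · have h4 := mul_pos h3 (hp (a / 2) (by linarith))
          nlinarith
      exact h2.trans (h1.trans (hhalf n))
    · have h2 : h (sc h R n / 4) ≤ h (a / 2) := hm (by linarith)
      have h3 := hb (sc h R n / 4)
      have h4 : a * (1 - h (a / 2) / 2) ≤ a * (1 - h (sc h R n / 4) / 2) :=
        mul_le_mul_of_nonneg_left (by linarith) ha
      have h5 : a * (1 - h (sc h R n / 4) / 2) ≤ sc h R n * (1 - h (sc h R n / 4) / 2) :=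
        mul_le_mul_of_nonneg_right han (by linarith)
      exact h4.trans h5

end Pool.Agent.Helper98.PZ
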